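import Mathlib
open Finset Function
namespace Pool.Agent.Results.MP_0f9109_lc.Bounded

structure Mech (n : ℕ) where
  x : (Fin n → ℝ) → Fin n → ℝ
  p : (Fin n → ℝ) → Fin n → ℝ

def ValidOn {n : ℕ} (K : Finset (Fin n)) (S : Set (Fin n → ℝ)) (M : Mech n) : Prop :=
  ∀ v ∈ S, (∀ i ∈ K, 0 ≤ M.x v i) ∧ ∑ i ∈ K, M.x v i ≤ 1 ∧ (∀ i ∈ K, 0 ≤ M.x v i * v i - M.p v i) ∧
    ∀ i ∈ K, ∀ b : ℝ, update v i b ∈ S →
      M.x (update v i b) i * v i - M.p (update v i b) i ≤ M.x v i * v i - M.p v i

noncomputable def top {n : ℕ} (k : ℕ) (v : Fin n → ℝ) : Finset (Fin n) :=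
  univ.filter fun i => (univ.filter fun j => v i < v j ∨ (v j = v i ∧ j < i)).card < k

lemma alt (g : ℕ → ℝ) (c N : ℕ) (h0 : ∀ n < N, 0 ≤ g n ∧ g n ≤ 1)
    (hm : ∀ n, n + 1 < N → g n ≤ g (n + 1)) : ∑ n ∈ range N, (-1) ^ (n + c) * g n ≤ 1 := by
  have key : ∀ L, L < N → ∑ n ∈ range (L + 1), (-1 : ℝ) ^ (n + c) * g n ≤
      if Even (L + c) then g L else 0 := by
    intro L
    induction L with
    | zero =>
      intro h
      have := h0 0 h
      by_cases hc : Even c
      · simp [hc, hc.neg_one_pow]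
      · simp [hc, (Nat.not_even_iff_odd.mp hc).neg_one_pow, this.1]
    | succ L ih =>
      intro h
      have h1 := ih (by omega)
      have h2 := hm L h
      rw [sum_range_succ]
      by_cases hc : Even (L + c)
      · have h3 : ¬ Even (L + 1 + c) := by rw [Nat.add_right_comm, Nat.even_add_one]; simpa
        rw [if_pos hc] at h1
        rw [if_neg h3, (Nat.not_even_iff_odd.mp h3).neg_one_pow]
        linarith
      · have h3 : Even (L + 1 + c) := by rw [Nat.add_right_comm, Nat.even_add_one]; exact hc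
        rw [if_neg hc] at h1
        rw [if_pos h3, h3.neg_one_pow]
        linarith
  cases N with
  | zero => simp
  | succ L =>
    refine (key L (by omega)).trans ?_
    split_ifs
    · exact (h0 L (by omega)).2
    · exact zero_le_one

lemma sum_line {m q : ℕ} (j : Fin m) (F : (Fin m → Fin q) → ℝ) :
    ∑ s : Fin m → Fin q, ∑ t : Fin q, F (update s j t) = q * ∑ s, F s := by
  have hinv : Involutive fun z : (Fin m → Fin q) × Fin q => (update z.1 j z.2, z.1 j) := by
    rintro ⟨s, t⟩; simp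
  have h := Equiv.sum_comp hinv.toPerm (fun z => F z.1)
  simp only [Involutive.coe_toPerm, Fintype.sum_prod_type, sum_const, card_univ, Fintype.card_fin,
    nsmul_eq_mul] at h
  rw [h, mul_sum]

noncomputable def mid (q : ℕ) (t : ℕ) : ℝ := 1 + (t + 1) / (2 * q)

noncomputable def prof {m q : ℕ} (s : Fin m → Fin q) (z : ℝ) : Fin (m + 2) → ℝ :=
  Fin.cons 1 (Fin.cons z fun j => mid q (s j))

def sm {m q : ℕ} (s : Fin m → Fin q) : ℕ := ∑ j, (s j : ℕ)

noncomputable def val {m q : ℕ} (o : (Fin m → Fin q) × Bool) : Fin (m + 2) → ℝ :=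
  prof o.1 (if o.2 = true ∧ Even (sm o.1) then 300 else 3)

lemma mid_gt {q : ℕ} (t : Fin q) : 1 < mid q t := by
  have : (0 : ℝ) < q := by exact_mod_cast t.pos
  unfold mid
  have : (0 : ℝ) < ((t : ℕ) + 1) / (2 * q) := by positivity
  linarith

lemma mid_le {q : ℕ} (t : Fin q) : mid q t ≤ 3 / 2 := by
  have h0 : (0 : ℝ) < q := by exact_mod_cast t.pos
  have h1 : ((t : ℕ) : ℝ) + 1 ≤ q := by exact_mod_cast t.2
  unfold mid
  have : (((t : ℕ) : ℝ) + 1) / (2 * q) ≤ 1 / 2 := by
    rw [div_le_div_iff₀ (by positivity) (by positivity)]; linarith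
  linarith

lemma mid_lt {q : ℕ} (hq : 0 < q) {a b : ℕ} (h : a < b) : mid q a < mid q b := by
  have h0 : (0 : ℝ) < q := by exact_mod_cast hq
  have h1 : (a : ℝ) < b := by exact_mod_cast h
  unfold mid
  gcongr

lemma prof_upd1 {m q : ℕ} (s : Fin m → Fin q) (z z' : ℝ) :
    update (prof s z) (Fin.succ 0) z' = prof s z' := by
  unfold prof
  rw [← Fin.cons_update, Fin.update_cons_zero]

lemma prof_upd {m q : ℕ} (s : Fin m → Fin q) (z : ℝ) (j : Fin m) (t : Fin q) :
    update (prof s z) j.succ.succ (mid q t) = prof (update s j t) z := by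
  unfold prof
  rw [← Fin.cons_update, ← Fin.cons_update]
  congr 2
  funext i
  by_cases h : i = j
  · subst h; simp
  · simp [h]

lemma prof_gt {m q : ℕ} (s : Fin m → Fin q) {z : ℝ} (hz : 1 < z) (i : Fin (m + 1)) :
    1 < prof s z i.succ := by
  refine Fin.cases ?_ (fun j => ?_) i
  · simpa [prof] using hz
  · simpa [prof] using mid_gt (s j)

lemma val_gt {m q : ℕ} (o : (Fin m → Fin q) × Bool) (i : Fin (m + 1)) : 1 < val o i.succ :=
  prof_gt _ (by split_ifs <;> norm_num) i

lemma val_zero {m q : ℕ} (o : (Fin m → Fin q) × Bool) : val o 0 = 1 := rfl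

lemma top_val {m q : ℕ} (o : (Fin m → Fin q) × Bool) : top (m + 1) (val o) = univ.erase 0 := by
  ext i
  simp only [top, mem_filter, mem_univ, true_and, mem_erase, and_true]
  refine Fin.cases ?_ (fun i => ?_) i
  · simp only [ne_eq, not_true, iff_false, not_lt]
    have : univ.erase (0 : Fin (m + 2)) ⊆
        univ.filter fun j => val o 0 < val o j ∨ (val o j = val o 0 ∧ j < 0) := by
      intro j hj
      obtain ⟨j, rfl⟩ := Fin.exists_succ_eq.mpr (mem_erase.mp hj).1
      simp only [mem_filter, mem_univ, true_and]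
      exact Or.inl (val_gt o j)
    simpa using card_le_card this
  · simp only [ne_eq, Fin.succ_ne_zero, not_false_eq_true, iff_true]
    have : (univ.filter fun j => val o i.succ < val o j ∨ (val o j = val o i.succ ∧ j < i.succ)) ⊆
        (univ.erase 0).erase i.succ := by
      intro j hj
      simp only [mem_filter, mem_univ, true_and] at hj
      have h1 := val_gt o i
      simp only [mem_erase, mem_univ, and_true]
      constructor
      · rintro rfl
        rcases hj with h | h
        · exact lt_irrefl _ h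
        · exact lt_irrefl _ h.2
      · rintro rfl
        rw [val_zero] at hj
        rcases hj with h | h <;> linarith [h]
    have h2 := card_le_card this
    rw [card_erase_of_mem (by simp), card_erase_of_mem (by simp)] at h2
    simp at h2
    omega

lemma sum_K {m : ℕ} (f : Fin (m + 2) → ℝ) :
    ∑ i ∈ univ.erase 0, f i = f (Fin.succ 0) + ∑ j : Fin m, f j.succ.succ := by
  have h := add_sum_erase univ f (mem_univ 0)
  rw [Fin.sum_univ_succ, Fin.sum_univ_succ] at h
  linarith

lemma upper {m q : ℕ} (hq : 0 < q) (M : Mech (m + 2)) (S : Set (Fin (m + 2) → ℝ))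
    (hS : ∀ o : (Fin m → Fin q) × Bool, val o ∈ S) (hM : ValidOn (univ.erase 0) S M) :
    ∑ s : Fin m → Fin q, (99 / 100 * ∑ i ∈ univ.erase 0, M.p (val (s, false)) i +
      1 / 100 * ∑ i ∈ univ.erase 0, M.p (val (s, true)) i) ≤
      (q : ℝ) ^ m * (3 + 3 / 200 + 3 / 2 * (m / q)) := by
  have h3 : ∀ s : Fin m → Fin q, prof s 3 ∈ S := fun s => by simpa [val] using hS (s, false)
  have hK : ∀ i : Fin (m + 1), i.succ ∈ (univ.erase 0 : Finset (Fin (m + 2))) := fun i => by simp
  have hmidp : ∀ (s : Fin m → Fin q) z, prof s z ∈ S →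
      ∑ j : Fin m, M.p (prof s z) j.succ.succ ≤ 3 / 2 * ∑ j : Fin m, M.x (prof s z) j.succ.succ := by
    intro s z hz
    rw [mul_sum]
    refine sum_le_sum fun j _ => ?_
    have h1 := (hM _ hz).1 _ (hK j.succ)
    have h2 := (hM _ hz).2.2.1 _ (hK j.succ)
    have h4 : prof s z j.succ.succ = mid q (s j) := rfl
    have h5 := mid_le (s j)
    rw [h4] at h2
    nlinarith
  have hstate : ∀ s : Fin m → Fin q, (99 / 100 * ∑ i ∈ univ.erase 0, M.p (val (s, false)) i +
      1 / 100 * ∑ i ∈ univ.erase 0, M.p (val (s, true)) i) ≤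
      3 + 3 / 200 + 3 / 2 * ∑ j : Fin m, (-1) ^ sm s * M.x (prof s 3) j.succ.succ := by
    intro s
    have a1 := (hM _ (h3 s)).1 _ (hK 0)
    have a2 := (hM _ (h3 s)).2.1
    have a3 := (hM _ (h3 s)).2.2.1 _ (hK 0)
    have a4 := hmidp s 3 (h3 s)
    have a5 : 0 ≤ ∑ j : Fin m, M.x (prof s 3) j.succ.succ :=
      sum_nonneg fun j _ => (hM _ (h3 s)).1 _ (hK j.succ)
    have e1 : ∀ z, prof s z (Fin.succ 0) = z := fun _ => rfl
    rw [sum_K] at a2
    rw [e1] at a3
    rw [← mul_sum, sum_K, sum_K]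
    by_cases hs : Even (sm s)
    · have hH : prof s 300 ∈ S := by simpa [val, hs] using hS (s, true)
      have b1 := (hM _ hH).1 _ (hK 0)
      have b2 := (hM _ hH).2.1
      have b3 := (hM _ hH).2.2.2 _ (hK 0) 3 (by rw [prof_upd1]; exact h3 s)
      have b4 := hmidp s 300 hH
      have b5 : 0 ≤ ∑ j : Fin m, M.x (prof s 300) j.succ.succ :=
        sum_nonneg fun j _ => (hM _ hH).1 _ (hK j.succ)
      rw [sum_K] at b2
      rw [prof_upd1, e1] at b3
      simp only [val, hs, hs.neg_one_pow, and_true, Bool.false_eq_true, if_false, if_true]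
      linarith
    · simp only [val, hs, (Nat.not_even_iff_odd.mp hs).neg_one_pow, and_false, if_false]
      linarith
  have hline : ∀ j : Fin m, (q : ℝ) * ∑ s : Fin m → Fin q, (-1) ^ sm s * M.x (prof s 3) j.succ.succ
      ≤ (q : ℝ) ^ m := by
    intro j
    rw [← sum_line j]
    have : ∀ s : Fin m → Fin q,
        ∑ t : Fin q, (-1) ^ sm (update s j t) * M.x (prof (update s j t) 3) j.succ.succ ≤ 1 := by
      intro s
      let g : ℕ → ℝ := fun n =>
        if h : n < q then M.x (prof (update s j ⟨n, h⟩) 3) j.succ.succ else 0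
      have h1 := alt g (∑ i ∈ univ \ {j}, (s i : ℕ)) q ?_ ?_
      · rw [← Fin.sum_univ_eq_sum_range (fun n => (-1) ^ (n + ∑ i ∈ univ \ {j}, (s i : ℕ)) * g n)]
          at h1
        refine le_of_eq_of_le (sum_congr rfl fun t _ => ?_) h1
        have h2 : sm (update s j t) = t + ∑ i ∈ univ \ {j}, (s i : ℕ) := by
          rw [← sum_update_of_mem (mem_univ j) (fun i => (s i : ℕ)) t]
          refine sum_congr rfl fun i _ => ?_
          by_cases h : i = j
          · subst h; simp
          · simp [h]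
        simp only [g, t.2, dif_pos, h2]
      · intro n hn
        simp only [g, hn, dif_pos]
        have a1 := (hM _ (h3 (update s j ⟨n, hn⟩))).1
        have a2 := (hM _ (h3 (update s j ⟨n, hn⟩))).2.1
        exact ⟨a1 _ (hK _), (single_le_sum a1 (hK _)).trans a2⟩
      · intro n hn
        have hn' : n < q := by omega
        simp only [g, hn, hn', dif_pos]
        have a1 := (hM _ (h3 (update s j ⟨n, hn'⟩))).2.2.2 _ (hK j.succ) (mid q (⟨n + 1, hn⟩ : Fin q))
          (by rw [prof_upd]; exact h3 _)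
        have a2 := (hM _ (h3 (update s j ⟨n + 1, hn⟩))).2.2.2 _ (hK j.succ) (mid q (⟨n, hn'⟩ : Fin q))
          (by rw [prof_upd]; exact h3 _)
        rw [prof_upd, update_idem] at a1 a2
        have e1 : ∀ t : Fin q, prof (update s j t) 3 j.succ.succ = mid q t := fun t => by simp [prof]
        rw [e1] at a1 a2
        have a3 := mid_lt hq (Nat.lt_succ_self n)
        simp only at a1 a2
        by_contra hc
        nlinarith
    refine (sum_le_sum fun s _ => this s).trans ?_
    simp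
  have hq' : (0 : ℝ) < q := by exact_mod_cast hq
  refine (sum_le_sum fun s _ => hstate s).trans ?_
  rw [sum_add_distrib, ← mul_sum, sum_comm]
  have : ∑ j : Fin m, ∑ s : Fin m → Fin q, (-1) ^ sm s * M.x (prof s 3) j.succ.succ ≤
      ∑ j : Fin m, (q : ℝ) ^ m / q :=
    sum_le_sum fun j _ => by rw [le_div_iff₀ hq', mul_comm]; exact hline j
  simp only [sum_const, card_univ, Fintype.card_fin, nsmul_eq_mul, Fintype.card_pi, prod_const,
    Nat.cast_pow] at this ⊢
  have e : (q : ℝ) ^ m * (3 + 3 / 200 + 3 / 2 * (m / q)) =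
    (q : ℝ) ^ m * (3 + 3 / 200) + 3 / 2 * (m * ((q : ℝ) ^ m / q)) := by ring
  rw [e]
  linarith

open Classical in
noncomputable def T (m q : ℕ) (v : Fin (m + 2) → ℝ) : ℝ :=
  if ∃ s : Fin m → Fin q, ¬ Even (sm s) ∧ ∀ j, v j.succ.succ = mid q (s j) then 3 else 300

open Classical in
noncomputable def M0 (m q : ℕ) : Mech (m + 2) where
  x v := Fin.cons (if v (Fin.succ 0) < T m q v ∧ 1 ≤ v 0 then 1 else 0)
    (Fin.cons (if T m q v ≤ v (Fin.succ 0) then 1 else 0) 0)
  p v := Fin.cons (if v (Fin.succ 0) < T m q v ∧ 1 ≤ v 0 then 1 else 0)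
    (Fin.cons (if T m q v ≤ v (Fin.succ 0) then T m q v else 0) 0)

lemma T_upd0 (m q v b) : T m q (update v 0 b) = T m q v := by
  simp [T]

lemma T_upd1 (m q v b) : T m q (update v (Fin.succ 0) b) = T m q v := by
  have : ∀ j : Fin m, j.succ.succ ≠ Fin.succ 0 := fun j h => Fin.succ_ne_zero _ (Fin.succ_inj.mp h)
  simp only [T, update_of_ne (this _)]

lemma M0_valid (m q : ℕ) (S) : ValidOn univ S (M0 m q) := by
  intro v _
  refine ⟨fun i _ => ?_, ?_, fun i _ => ?_, fun i _ b _ => ?_⟩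
  · refine Fin.cases ?_ (fun i => Fin.cases ?_ (fun i => ?_) i) i <;>
      simp only [M0, Fin.cons_zero, Fin.cons_succ, Pi.zero_apply, le_refl] <;>
      split_ifs <;> norm_num
  · simp only [M0, Fin.sum_univ_succ, Fin.cons_zero, Fin.cons_succ, Pi.zero_apply, sum_const_zero]
    split_ifs with h1 h2
    · exact absurd h1.1 (not_lt.mpr h2)
    all_goals norm_num
  · refine Fin.cases ?_ (fun i => Fin.cases ?_ (fun i => ?_) i) i <;>
      simp only [M0, Fin.cons_zero, Fin.cons_succ, Pi.zero_apply]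
    · split_ifs with h
      · linarith [h.2]
      · simp
    · split_ifs with h
      · linarith
      · simp
    · simp
  · refine Fin.cases ?_ (fun i => Fin.cases ?_ (fun i => ?_) i) i <;>
      simp only [M0, Fin.cons_zero, Fin.cons_succ, Pi.zero_apply, T_upd0, T_upd1, update_self,
        update_of_ne (Fin.succ_ne_zero _)]
    · split_ifs with h1 h2 h2
      · exact le_rfl
      · have : ¬ 1 ≤ v 0 := fun h => h2 ⟨h1.1, h⟩
        linarith
      · linarith [h2.2]
      · exact le_rfl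
    · split_ifs with h1 h2 h2 <;> linarith
    · exact le_rfl

lemma T_prof {m q : ℕ} (s : Fin m → Fin q) (z : ℝ) :
    T m q (prof s z) = if Even (sm s) then 300 else 3 := by
  unfold T
  by_cases hs : Even (sm s)
  · rw [if_pos hs, if_neg]
    rintro ⟨s', h1, h2⟩
    have : s = s' := by
      funext j
      have h3 : mid q (s j) = mid q (s' j) := h2 j
      rcases lt_trichotomy (s j) (s' j) with h | h | h
      · exact absurd h3 (mid_lt (s j).pos h).ne
      · exact h
      · exact absurd h3 (mid_lt (s j).pos h).ne'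
    exact h1 (this ▸ hs)
  · rw [if_neg hs, if_pos ⟨s, hs, fun j => rfl⟩]

lemma lower {m q : ℕ} : (q : ℝ) ^ m * (3 + 99 / 200) ≤
    ∑ s : Fin m → Fin q, (99 / 100 * ∑ i, (M0 m q).p (val (s, false)) i +
      1 / 100 * ∑ i, (M0 m q).p (val (s, true)) i) := by
  have h1 : ∀ s : Fin m → Fin q, (99 / 100 * ∑ i, (M0 m q).p (val (s, false)) i +
      1 / 100 * ∑ i, (M0 m q).p (val (s, true)) i) = 3 + 99 / 200 + 99 / 200 * (-1) ^ sm s := by
    intro s
    have e1 : ∀ z, prof s z (Fin.succ 0) = z := fun _ => rfl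
    have e0 : ∀ z, prof s z 0 = 1 := fun _ => rfl
    simp only [M0, val, Fin.sum_univ_succ, Fin.cons_zero, Fin.cons_succ, Pi.zero_apply,
      sum_const_zero, T_prof, e1, e0]
    by_cases hs : Even (sm s)
    · simp only [hs, hs.neg_one_pow]; norm_num
    · simp only [hs, (Nat.not_even_iff_odd.mp hs).neg_one_pow]; norm_num
  have h2 : 0 ≤ ∑ s : Fin m → Fin q, (-1 : ℝ) ^ sm s := by
    have : ∑ s : Fin m → Fin q, (-1 : ℝ) ^ sm s = ∏ _j : Fin m, ∑ t : Fin q, (-1 : ℝ) ^ (t : ℕ) := by
      rw [prod_univ_sum]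
      simp only [Fintype.piFinset_univ, sm, prod_pow_eq_pow_sum]
    rw [this]
    refine prod_nonneg fun _ _ => ?_
    rw [Fin.sum_univ_eq_sum_range (fun n => (-1 : ℝ) ^ n), neg_one_geom_sum]
    split_ifs <;> norm_num
  simp only [h1, sum_add_distrib, ← mul_sum, sum_const, card_univ, Fintype.card_fin, nsmul_eq_mul,
    Fintype.card_pi, prod_const, Nat.cast_pow]
  linarith

theorem result (k : ℕ) (hk : 1 ≤ k) :
    ∃ (n : ℕ) (Ω : Type) (_ : Fintype Ω) (w : Ω → ℝ) (V : Ω → Fin n → ℝ),
      k < n ∧ (∀ o, 0 < w o) ∧ ∑ o, w o = 1 ∧ (∀ o i, 0 < V o i) ∧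
      ∃ M₀ : Mech n, ValidOn univ {v | ∀ i, 0 < v i} M₀ ∧ 0 < ∑ o, w o * ∑ i, M₀.p (V o) i ∧
        ∀ M : Finset (Fin n) → Mech n,
          (∀ K, K.card = k → ValidOn K {v | v ∈ Set.range V ∧ ∀ i ∈ K, ∀ j ∉ K, v j ≤ v i} (M K)) →
          ∑ o, w o * ∑ i ∈ top k (V o), (M (top k (V o))).p (V o) i ≤
            7 / 8 * ∑ o, w o * ∑ i, M₀.p (V o) i := by
  obtain ⟨m, rfl⟩ : ∃ m, k = m + 1 := ⟨k - 1, by omega⟩
  set q := 100 * (m + 1) with hq
  have hq0 : 0 < q := by omega
  have hN : (0 : ℝ) < (q : ℝ) ^ m := by positivity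
  have hsum : ∀ F : (Fin m → Fin q) × Bool → ℝ,
      ∑ o : (Fin m → Fin q) × Bool, (if o.2 = true then 1 / 100 else 99 / 100) / (q : ℝ) ^ m * F o =
      (∑ s, (99 / 100 * F (s, false) + 1 / 100 * F (s, true))) / (q : ℝ) ^ m := by
    intro F
    rw [Fintype.sum_prod_type, sum_div]
    refine sum_congr rfl fun s _ => ?_
    simp only [Fintype.sum_bool, if_true, Bool.false_eq_true, if_false]
    ring
  have hlow : (3 + 99 / 200 : ℝ) ≤ ∑ o : (Fin m → Fin q) × Bool,
      (if o.2 = true then 1 / 100 else 99 / 100) / (q : ℝ) ^ m * ∑ i, (M0 m q).p (val o) i := by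
    rw [hsum, le_div_iff₀ hN, mul_comm]
    exact lower
  refine ⟨m + 2, (Fin m → Fin q) × Bool, inferInstance,
    fun o => (if o.2 = true then 1 / 100 else 99 / 100) / (q : ℝ) ^ m, val, by omega, ?_, ?_, ?_,
    M0 m q, M0_valid _ _ _, by linarith, fun M hM => ?_⟩
  · intro o
    simp only
    split_ifs <;> positivity
  · have := hsum fun _ => 1
    simp only [mul_one] at this
    rw [this]
    simp only [sum_const, card_univ, Fintype.card_fin, nsmul_eq_mul, Fintype.card_pi, prod_const,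
      Nat.cast_pow]
    field_simp
    norm_num
  · intro o i
    refine Fin.cases ?_ (fun i => ?_) i
    · rw [val_zero]; exact one_pos
    · linarith [val_gt o i]
  · simp only [top_val]
    have hup := upper hq0 (M (univ.erase 0)) _ (fun o => by
      refine ⟨⟨o, rfl⟩, fun i hi j hj => ?_⟩
      obtain ⟨i, rfl⟩ := Fin.exists_succ_eq.mpr (mem_erase.mp hi).1
      have : j = 0 := by simpa using hj
      rw [this, val_zero]
      exact (val_gt o i).le) (hM _ (by simp))
    rw [hsum fun o => ∑ i ∈ univ.erase 0, (M (univ.erase 0)).p (val o) i]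
    have h1 : (m : ℝ) / q ≤ 1 / 100 := by
      rw [div_le_div_iff₀ (by exact_mod_cast hq0) (by norm_num), hq]
      push_cast
      linarith
    refine le_trans (b := (3 + 3 / 200 + 3 / 2 * ((m : ℝ) / q) : ℝ)) ?_ (by linarith)
    rw [div_le_iff₀ hN, mul_comm]
    exact hup

end Pool.Agent.Results.MP_0f9109_lc.Bounded
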